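import Pool.Agent.helper35.MR.SpecA

/-!
# Project mr, module OPT: positions indexed by `Option (Fin n)`
-/

set_option autoImplicit false

open Finset

namespace Pool.Agent.helper35.MR

open Pool.Agent.RRank

theorem OPT : OPT_stmt := by
  intro K _ V n x y z hF
  let e : Option (Fin n) ≃ Fin (n + 1) := (finSuccEquiv n).symm
  refine ⟨fun i => x (e.symm i), fun i => y (e.symm i), fun i => z (e.symm i), ?_⟩
  intro U V' W hdim
  let L : (Fin (n + 1) → K) ≃ₗ[K] (Option (Fin n) → K) := LinearEquiv.funCongrLeft K K e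
  have hL : ∀ (u : Fin (n + 1) → K) (i : Option (Fin n)), L u i = u (e i) := fun u i => rfl
  have hfr : ∀ S : Submodule K (Fin (n + 1) → K),
      Module.finrank K (S.map (L : (Fin (n + 1) → K) →ₗ[K] (Option (Fin n) → K))) =
        Module.finrank K S := fun S => LinearEquiv.finrank_map_eq L S
  obtain ⟨u', hu', v', hv', w', hw', hne⟩ := hF
    (U.map (L : (Fin (n + 1) → K) →ₗ[K] (Option (Fin n) → K)))
    (V'.map (L : (Fin (n + 1) → K) →ₗ[K] (Option (Fin n) → K)))
    (W.map (L : (Fin (n + 1) → K) →ₗ[K] (Option (Fin n) → K)))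
    (by
      rw [hfr, hfr, hfr]
      rw [Fintype.card_fin] at hdim
      rw [Fintype.card_option, Fintype.card_fin]
      exact hdim)
  obtain ⟨u, hu, rfl⟩ := hu'
  obtain ⟨v, hv, rfl⟩ := hv'
  obtain ⟨w, hw, rfl⟩ := hw'
  refine ⟨u, hu, v, hv, w, hw, ?_⟩
  intro h0
  apply hne
  rw [← h0]
  unfold ev3
  refine Fintype.sum_equiv e _ _ (fun i => Fintype.sum_equiv e _ _ (fun j =>
    Fintype.sum_equiv e _ _ (fun k => ?_)))
  simp only [LinearEquiv.coe_coe, hL, Equiv.symm_apply_apply]

end Pool.Agent.helper35.MR
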